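import Mathlib

set_option autoImplicit false

namespace Pool.Agent.Helper69.OWN.T26

/-!
A counterexample with `k = 5` and `n = 26`.  Vertices: `A = {0..8}`, `I1 = {9,10,11}`,
`I2 = {12,13,14}`, `D = {15..23}`, `c1 = 24`, `c2 = 25`.  All arcs between these classes go
`A -> I -> D`, `A -> D`, `I2 -> I1`, `D -> c1 -> I1`, `I2 -> c2 -> A`, except that `c1` sends two arcs
to `A` and receives the others from `A` and `I2`, `c2` receives two arcs from `D` and sends arcs to the
rest of `D` and to `I1`, and `c1 -> c2`.  The cut `X = D + I1 + c1` has exactly five outgoing arcs.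
-/

/-- out-neighbourhoods of the tournament, as bit masks -/
def rowT : List ℕ := [33554214, 16776932, 33554160, 33554183, 33554187, 16776920, 33554073, 33554201, 33554022, 16745472, 16746496, 16744960, 67087872, 67096064, 67083776, 63242240, 22413312, 27820032, 22675456, 27361280, 19562496, 25526272, 20578304, 55902208, 33558050, 8327167]

/-- out-neighbourhoods of a subdigraph with all degrees at least five and 135 arcs -/
def rowB : List ℕ := [24868, 12516, 8432, 16647, 16651, 4312, 16537, 4377, 12358, 9995264, 6490112, 14942720, 33566208, 33574400, 33562112, 59047936, 22413312, 27820032, 22675456, 27361280, 19562496, 25526272, 20578304, 39124992, 3618, 511]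

/-- parent functions of five arc-disjoint spanning out-branchings with root `0` -/
def outPar : List (List ℕ) := [[0, 8, 1, 25, 25, 8, 25, 25, 4, 0, 9, 25, 8, 0, 13, 19, 0, 9, 16, 0, 0, 17, 16, 21, 19, 15],
  [0, 0, 0, 6, 6, 0, 1, 6, 0, 12, 0, 14, 1, 8, 0, 1, 19, 0, 23, 10, 1, 22, 18, 0, 21, 23],
  [0, 25, 3, 5, 5, 24, 8, 1, 25, 24, 12, 13, 0, 12, 7, 0, 9, 12, 12, 20, 18, 20, 9, 13, 18, 12],
  [0, 3, 25, 7, 2, 25, 2, 2, 7, 6, 14, 5, 5, 7, 5, 12, 10, 25, 0, 25, 5, 25, 15, 19, 0, 24],
  [0, 24, 8, 4, 7, 1, 5, 5, 3, 1, 24, 0, 7, 1, 1, 21, 23, 22, 15, 22, 23, 0, 0, 15, 15, 13]]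

/-- parent functions of five arc-disjoint spanning in-branchings with root `0` -/
def inPar : List (List ℕ) := [[0, 16, 4, 22, 1, 22, 16, 19, 2, 20, 15, 18, 16, 25, 22, 24, 22, 15, 22, 24, 24, 18, 24, 18, 25, 0],
  [0, 7, 5, 1, 3, 6, 3, 0, 1, 17, 17, 9, 24, 14, 25, 23, 18, 24, 17, 23, 15, 23, 20, 24, 1, 1],
  [0, 6, 6, 8, 14, 13, 0, 8, 6, 23, 11, 16, 13, 23, 23, 16, 17, 23, 20, 15, 17, 15, 17, 25, 10, 3],
  [0, 5, 7, 24, 0, 4, 4, 4, 12, 16, 21, 23, 25, 24, 24, 18, 24, 21, 19, 21, 19, 16, 19, 16, 5, 5],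
  [0, 2, 15, 0, 8, 3, 7, 3, 5, 15, 22, 15, 15, 15, 15, 25, 20, 19, 24, 16, 21, 24, 21, 22, 11, 7]]

/-- the two vertex classes of the dual solution, and the cut -/
def maskP : ℕ := 16776704
def maskQ : ℕ := 32767
def maskX : ℕ := 33525248

def adjT (u v : Fin 26) : Bool := (rowT.getD u.val 0).testBit v.val
def adjB (u v : Fin 26) : Bool := (rowB.getD u.val 0).testBit v.val

def po (i : Fin 5) (v : Fin 26) : Fin 26 := Fin.ofNat 26 ((outPar.getD i.val []).getD v.val 0)
def pi (i : Fin 5) (v : Fin 26) : Fin 26 := Fin.ofNat 26 ((inPar.getD i.val []).getD v.val 0)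

/-- the tournament -/
def T : Finset (Fin 26 × Fin 26) := Finset.univ.filter (fun e => adjT e.1 e.2 = true)
/-- the subdigraph -/
def B : Finset (Fin 26 × Fin 26) := Finset.univ.filter (fun e => adjB e.1 e.2 = true)

/-! ### Finite checks -/

lemma adj_irrefl : ∀ u : Fin 26, adjT u u = false := by decide +kernel

lemma adj_tour : ∀ u v : Fin 26, u ≠ v → (adjT u v = true ↔ ¬ adjT v u = true) := by
  decide +kernel

lemma B_sub : ∀ u v : Fin 26, adjB u v = true → adjT u v = true := by decide +kernel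

lemma B_card : B.card = 135 := by decide +kernel

lemma B_deg : ∀ v : Fin 26, 5 ≤ (B.filter (fun e => e.1 = v)).card ∧
    5 ≤ (B.filter (fun e => e.2 = v)).card := by decide +kernel

lemma po_arc : ∀ (i : Fin 5) (w : Fin 26), w ≠ 0 → adjT (po i w) w = true := by decide +kernel

lemma po_inj : ∀ (i j : Fin 5) (w : Fin 26), w ≠ 0 → po i w = po j w → i = j := by
  decide +kernel

lemma po_root : ∀ (i : Fin 5) (w : Fin 26), (po i)^[26] w = 0 := by decide +kernel

lemma pi_arc : ∀ (i : Fin 5) (w : Fin 26), w ≠ 0 → adjT w (pi i w) = true := by decide +kernel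

lemma pi_inj : ∀ (i j : Fin 5) (w : Fin 26), w ≠ 0 → pi i w = pi j w → i = j := by
  decide +kernel

lemma pi_root : ∀ (i : Fin 5) (w : Fin 26), (pi i)^[26] w = 0 := by decide +kernel

/-! ### The tournament is 5-arc-strong -/

lemma mem_T (u v : Fin 26) : (u, v) ∈ T ↔ adjT u v = true := by simp [T]

lemma exists_step (f : Fin 26 → Fin 26) (S : Finset (Fin 26)) :
    ∀ (m : ℕ) (v : Fin 26), v ∉ S → f^[m] v ∈ S → ∃ w, w ∉ S ∧ f w ∈ S := by
  intro m
  induction m with
  | zero => intro v hv h; exact absurd h hv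
  | succ m ih =>
    intro v hv h
    by_cases hf : f v ∈ S
    · exact ⟨v, hv, hf⟩
    · exact ih (f v) hf (by simpa [Function.iterate_succ] using h)

lemma T_strong (S : Finset (Fin 26)) (hne : S.Nonempty) (hS : S ≠ Finset.univ) :
    5 ≤ (T.filter (fun e => e.1 ∈ S ∧ e.2 ∉ S)).card := by
  by_cases h0 : (0 : Fin 26) ∈ S
  · -- use the out-branchings
    obtain ⟨v, hv⟩ : ∃ v, v ∉ S := by
      by_contra h
      push Not at h
      exact hS (Finset.eq_univ_iff_forall.2 h)
    have h1 : ∀ i : Fin 5, ∃ w, w ∉ S ∧ po i w ∈ S := fun i =>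
      exists_step (po i) S 26 v hv (by rw [po_root]; exact h0)
    choose w hw1 hw2 using h1
    have hw0 : ∀ i, w i ≠ 0 := fun i h => hw1 i (h ▸ h0)
    have hinj : Function.Injective (fun i : Fin 5 => (po i (w i), w i)) := by
      intro i j hij
      simp only [Prod.mk.injEq] at hij
      obtain ⟨h3, h4⟩ := hij
      rw [h4] at h3
      exact po_inj i j (w j) (hw0 j) h3
    calc 5 = (Finset.univ.image (fun i : Fin 5 => (po i (w i), w i))).card := by
          rw [Finset.card_image_of_injective _ hinj]; rfl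
      _ ≤ _ := by
          apply Finset.card_le_card
          intro e he
          simp only [Finset.mem_image, Finset.mem_univ, true_and] at he
          obtain ⟨i, rfl⟩ := he
          simp only [Finset.mem_filter]
          exact ⟨(mem_T _ _).2 (po_arc i _ (hw0 i)), hw2 i, hw1 i⟩
  · -- use the in-branchings
    obtain ⟨v, hv⟩ := hne
    have h1 : ∀ i : Fin 5, ∃ w, w ∉ Sᶜ ∧ pi i w ∈ Sᶜ := fun i =>
      exists_step (pi i) Sᶜ 26 v (by simpa using hv) (by rw [pi_root]; simpa using h0)
    choose w hw1 hw2 using h1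
    have hw1' : ∀ i, w i ∈ S := fun i => by simpa using hw1 i
    have hw2' : ∀ i, pi i (w i) ∉ S := fun i => by simpa using hw2 i
    have hw0 : ∀ i, w i ≠ 0 := fun i h => h0 (h ▸ hw1' i)
    have hinj : Function.Injective (fun i : Fin 5 => (w i, pi i (w i))) := by
      intro i j hij
      simp only [Prod.mk.injEq] at hij
      obtain ⟨h3, h4⟩ := hij
      rw [h3] at h4
      exact pi_inj i j (w j) (hw0 j) h4
    calc 5 = (Finset.univ.image (fun i : Fin 5 => (w i, pi i (w i)))).card := by
          rw [Finset.card_image_of_injective _ hinj]; rfl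
      _ ≤ _ := by
          apply Finset.card_le_card
          intro e he
          simp only [Finset.mem_image, Finset.mem_univ, true_and] at he
          obtain ⟨i, rfl⟩ := he
          simp only [Finset.mem_filter]
          exact ⟨(mem_T _ _).2 (pi_arc i _ (hw0 i)), hw1' i, hw2' i⟩

/-! ### The dual bound -/

def P : Finset (Fin 26) := Finset.univ.filter (fun v => maskP.testBit v.val = true)
def Q : Finset (Fin 26) := Finset.univ.filter (fun v => maskQ.testBit v.val = true)
def X : Finset (Fin 26) := Finset.univ.filter (fun v => maskX.testBit v.val = true)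

def wt (e : Fin 26 × Fin 26) : ℕ :=
  (if e.1 ∈ P then 1 else 0) + (if e.2 ∈ Q then 1 else 0) + (if e.1 ∈ X ∧ e.2 ∉ X then 1 else 0)

lemma P_card : P.card = 15 := by decide +kernel
lemma Q_card : Q.card = 15 := by decide +kernel
lemma X_ne : X.Nonempty ∧ X ≠ Finset.univ := by decide +kernel

lemma excess : ∑ e ∈ T, (wt e - 1) = 19 := by decide +kernel

lemma sum_fst (C : Finset (Fin 26 × Fin 26)) (R : Finset (Fin 26)) :
    ∑ e ∈ C, (if e.1 ∈ R then 1 else 0) = ∑ u ∈ R, (C.filter (fun e => e.1 = u)).card := by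
  simp only [Finset.card_filter]
  rw [Finset.sum_comm]
  apply Finset.sum_congr rfl
  intro e _
  rw [Finset.sum_ite_eq]

lemma sum_snd (C : Finset (Fin 26 × Fin 26)) (R : Finset (Fin 26)) :
    ∑ e ∈ C, (if e.2 ∈ R then 1 else 0) = ∑ u ∈ R, (C.filter (fun e => e.2 = u)).card := by
  simp only [Finset.card_filter]
  rw [Finset.sum_comm]
  apply Finset.sum_congr rfl
  intro e _
  rw [Finset.sum_ite_eq]

lemma bound (C : Finset (Fin 26 × Fin 26)) (hC : C ⊆ T)
    (h : ∀ S : Finset (Fin 26), S.Nonempty → S ≠ Finset.univ →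
      5 ≤ (C.filter (fun e => e.1 ∈ S ∧ e.2 ∉ S)).card) : 136 ≤ C.card := by
  have hout : ∀ u : Fin 26, 5 ≤ (C.filter (fun e => e.1 = u)).card := by
    intro u
    refine (h {u} (Finset.singleton_nonempty u) ?_).trans ?_
    · intro h1
      have := congrArg Finset.card h1
      simp at this
    · apply Finset.card_le_card
      intro e he
      simp only [Finset.mem_filter, Finset.mem_singleton] at he ⊢
      exact ⟨he.1, he.2.1⟩
  have hin : ∀ u : Fin 26, 5 ≤ (C.filter (fun e => e.2 = u)).card := by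
    intro u
    refine (h {u}ᶜ ?_ ?_).trans ?_
    · rw [Finset.nonempty_iff_ne_empty]
      intro h1
      have := congrArg Finset.card h1
      simp [Finset.card_compl] at this
    · intro h1
      have := congrArg Finset.card h1
      simp [Finset.card_compl] at this
    · apply Finset.card_le_card
      intro e he
      simp only [Finset.mem_filter, Finset.mem_compl, Finset.mem_singleton, not_not] at he ⊢
      exact ⟨he.1, he.2.2⟩
  have hX := h X X_ne.1 X_ne.2
  have hsum : 155 ≤ ∑ e ∈ C, wt e := by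
    unfold wt
    rw [Finset.sum_add_distrib, Finset.sum_add_distrib, sum_fst C P, sum_snd C Q]
    have h1 : 5 * 15 ≤ ∑ u ∈ P, (C.filter (fun e => e.1 = u)).card := by
      calc 5 * 15 = ∑ _u ∈ P, 5 := by rw [Finset.sum_const, P_card]; rfl
        _ ≤ _ := Finset.sum_le_sum (fun u _ => hout u)
    have h2 : 5 * 15 ≤ ∑ u ∈ Q, (C.filter (fun e => e.2 = u)).card := by
      calc 5 * 15 = ∑ _u ∈ Q, 5 := by rw [Finset.sum_const, Q_card]; rfl
        _ ≤ _ := Finset.sum_le_sum (fun u _ => hin u)
    have h3 : 5 ≤ ∑ e ∈ C, (if e.1 ∈ X ∧ e.2 ∉ X then 1 else 0) := by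
      rw [← Finset.card_filter]; exact hX
    omega
  have hle : ∑ e ∈ C, wt e ≤ C.card + 19 := by
    calc ∑ e ∈ C, wt e ≤ ∑ e ∈ C, (1 + (wt e - 1)) := Finset.sum_le_sum (fun e _ => by omega)
      _ = C.card + ∑ e ∈ C, (wt e - 1) := by
          rw [Finset.sum_add_distrib]; simp
      _ ≤ C.card + ∑ e ∈ T, (wt e - 1) := by
          have := Finset.sum_le_sum_of_subset (f := fun e => wt e - 1) hC
          omega
      _ = C.card + 19 := by rw [excess]
  omega


end Pool.Agent.Helper69.OWN.T26
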