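import Mathlib

set_option autoImplicit false

namespace Pool.Agent.Helper69.OWN.TWK

open SimpleGraph

/-- A set of vertices of a graph which contains every path between two of its members. -/
def PathClosed {α : Type} (T : SimpleGraph α) (S : Set α) : Prop :=
  ∀ (u v : α) (p : T.Walk u v), p.IsPath → u ∈ S → v ∈ S → ∀ w ∈ p.support, w ∈ S

theorem PathClosed.inter {α : Type} {T : SimpleGraph α} {S S' : Set α}
    (h : PathClosed T S) (h' : PathClosed T S') : PathClosed T (S ∩ S') := by
  intro u v p hp hu hv w hw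
  exact ⟨h u v p hp hu.1 hv.1 w hw, h' u v p hp hu.2 hv.2 w hw⟩

/-- In a forest, a set inducing a connected subgraph is path-closed. -/
theorem pathClosed_of_connected {α : Type} {T : SimpleGraph α} (hT : T.IsAcyclic) {S : Set α}
    (hS : (T.induce S).Preconnected) : PathClosed T S := by
  classical
  intro u v p hp hu hv w hw
  obtain ⟨q⟩ := hS ⟨u, hu⟩ ⟨v, hv⟩
  have hpath : (q.toPath : (T.induce S).Walk ⟨u, hu⟩ ⟨v, hv⟩).IsPath := q.toPath.2
  have hq' : ((q.toPath : (T.induce S).Walk ⟨u, hu⟩ ⟨v, hv⟩).map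
      (SimpleGraph.Embedding.induce (G := T) S).toHom).IsPath :=
    hpath.map (SimpleGraph.Embedding.induce (G := T) S).injective
  have heq : (⟨p, hp⟩ : T.Path u v) = ⟨_, hq'⟩ := (hT.subsingleton_path u v).elim _ _
  have heq2 : p = ((q.toPath : (T.induce S).Walk ⟨u, hu⟩ ⟨v, hv⟩).map
      (SimpleGraph.Embedding.induce (G := T) S).toHom) := congrArg Subtype.val heq
  have hmem : w ∈ ((q.toPath : (T.induce S).Walk ⟨u, hu⟩ ⟨v, hv⟩).map
      (SimpleGraph.Embedding.induce (G := T) S).toHom).support := by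
    rw [← heq2]; exact hw
  rw [SimpleGraph.Walk.support_map] at hmem
  obtain ⟨x, _, hx⟩ := List.mem_map.mp hmem
  rw [← hx]
  exact x.2

/-- The last vertex of a path lying in a set `C`. -/
theorem exists_last {α : Type} {T : SimpleGraph α} (C : Set α) {z x : α} (q : T.Walk z x)
    (hq : q.IsPath) (hC : ∃ v ∈ q.support, v ∈ C) :
    ∃ w ∈ C, ∃ r : T.Walk w x, r.IsPath ∧ (∀ v ∈ r.support, v ∈ C → v = w) ∧
      (∀ v ∈ r.support, v ∈ q.support) := by
  induction q with
  | nil =>
    obtain ⟨v, hv, hvC⟩ := hC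
    simp only [SimpleGraph.Walk.support_nil, List.mem_singleton] at hv
    subst hv
    refine ⟨v, hvC, SimpleGraph.Walk.nil, SimpleGraph.Walk.IsPath.nil, ?_, ?_⟩
    · intro w hw _
      simpa using hw
    · intro w hw
      exact hw
  | @cons a b c h q' ih =>
    by_cases hex : ∃ v ∈ q'.support, v ∈ C
    · obtain ⟨w, hw, r, hr, h1, h2⟩ := ih hq.of_cons hex
      refine ⟨w, hw, r, hr, h1, ?_⟩
      intro v hv
      rw [SimpleGraph.Walk.support_cons]
      exact List.mem_cons_of_mem _ (h2 v hv)
    · obtain ⟨v, hv, hvC⟩ := hC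
      rw [SimpleGraph.Walk.support_cons, List.mem_cons] at hv
      rcases hv with hv | hv
      · subst hv
        refine ⟨v, hvC, SimpleGraph.Walk.cons h q', hq, ?_, fun w hw => hw⟩
        intro w hw hwC
        rw [SimpleGraph.Walk.support_cons, List.mem_cons] at hw
        rcases hw with hw | hw
        · exact hw
        · exact absurd ⟨w, hw, hwC⟩ hex
      · exact absurd ⟨v, hv, hvC⟩ hex

/-- Helly property for three path-closed sets of a connected graph. -/
theorem helly_three {α : Type} {T : SimpleGraph α} (hT : T.Connected) {A B C : Set α}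
    (hA : PathClosed T A) (hB : PathClosed T B) (hC : PathClosed T C)
    (hAB : (A ∩ B).Nonempty) (hBC : (B ∩ C).Nonempty) (hAC : (A ∩ C).Nonempty) :
    (A ∩ B ∩ C).Nonempty := by
  classical
  obtain ⟨x, hxA, hxB⟩ := hAB
  obtain ⟨y, hyB, hyC⟩ := hBC
  obtain ⟨z, hzA, hzC⟩ := hAC
  obtain ⟨q, hq⟩ := hT.exists_isPath z x
  obtain ⟨w, hwC, r, hr, h1, h2⟩ := exists_last C q hq ⟨z, q.start_mem_support, hzC⟩
  have hwA : w ∈ A := hA z x q hq hzA hxA w (h2 w r.start_mem_support)
  obtain ⟨p, hp⟩ := hT.exists_isPath y w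
  have hpC : ∀ v ∈ p.support, v ∈ C := fun v hv => hC y w p hp hyC hwC v hv
  have happ : (p.append r).IsPath := by
    rw [SimpleGraph.Walk.isPath_def, SimpleGraph.Walk.support_append]
    rw [List.nodup_append']
    refine ⟨hp.support_nodup, ?_, ?_⟩
    · exact hr.support_nodup.tail
    · intro v hv hv'
      have hvr : v ∈ r.support := List.mem_of_mem_tail hv'
      have : v = w := h1 v hvr (hpC v hv)
      subst this
      have hnd := hr.support_nodup
      rw [← SimpleGraph.Walk.cons_tail_support] at hnd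
      exact (List.nodup_cons.mp hnd).1 hv'
  have hwB : w ∈ B := by
    apply hB y x (p.append r) happ hyB hxB
    rw [SimpleGraph.Walk.mem_support_append_iff]
    exact Or.inl p.end_mem_support
  exact ⟨w, ⟨hwA, hwB⟩, hwC⟩

/-- The counterexample: the complete graph on five vertices in which five edges forming a
five-cycle are subdivided once. Vertex `(i, false)` is a branch vertex and `(i, true)` is the
subdivision vertex between the branch vertices `i` and `i + 2`. -/
def adjB (u v : Fin 5 × Bool) : Bool :=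
  (!u.2 && !v.2 && (decide (v.1 = u.1 + 1) || decide (u.1 = v.1 + 1))) ||
  (u.2 && !v.2 && (decide (v.1 = u.1) || decide (v.1 = u.1 + 2))) ||
  (!u.2 && v.2 && (decide (u.1 = v.1) || decide (u.1 = v.1 + 2)))

def Gr : SimpleGraph (Fin 5 × Bool) where
  Adj u v := adjB u v = true
  symm := by
    have : ∀ u v, adjB u v = true → adjB v u = true := by decide
    exact ⟨fun u v h => this u v h⟩
  loopless := by
    have : ∀ u, ¬ adjB u u = true := by decide
    exact ⟨fun u h => this u h⟩

instance : DecidableRel Gr.Adj := fun u v => inferInstanceAs (Decidable (adjB u v = true))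

/-- Bags of the decomposition with independence number at most two. -/
def bagA (i : Fin 6) : Finset (Fin 5 × Bool) :=
  if i.1 = 0 then Finset.univ.filter (fun v => v.2 = false)
  else Finset.univ.filter (fun v =>
    (v.2 = false ∧ (v.1.1 = i.1 - 1 ∨ v.1.1 = (i.1 - 1 + 2) % 5)) ∨
    (v.2 = true ∧ v.1.1 = i.1 - 1))

/-- Bags of the decomposition with bipartite bags. -/
def bagC (i : Fin 3) : Finset (Fin 5 × Bool) :=
  if i.1 = 0 then
    {((0 : Fin 5), false), (1, false), (2, false), (3, false), (0, true), (1, true), (2, true),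
      (4, true)}
  else if i.1 = 1 then
    {((4 : Fin 5), false), (3, false), (0, false), (2, true), (4, true)}
  else {((3 : Fin 5), true), (3, false), (0, false)}

/-- The two-colouring of each bag of the second decomposition. -/
def colC (i : Fin 3) (v : Fin 5 × Bool) : Fin 2 :=
  if i.1 = 0 then
    (if v = (0, false) ∨ v = (2, false) ∨ v = (1, true) ∨ v = (4, true) then 0 else 1)
  else if i.1 = 1 then (if v = (4, false) then 0 else 1)
  else (if v = (3, true) then 0 else 1)

/-- A set of nodes of a star which contains the centre, or has one element, is connected. -/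
theorem star_connected {n : ℕ} [NeZero n] (S : Set (Fin n)) (hne : S.Nonempty)
    (h : (0 : Fin n) ∈ S ∨ ∀ i ∈ S, ∀ j ∈ S, i = j) :
    ((starGraph (0 : Fin n)).induce S).Connected := by
  rcases h with h | h
  · apply SimpleGraph.Connected.of_isUniversal (v := ⟨0, h⟩)
    intro w hw
    rw [SimpleGraph.comap_adj]
    rw [starGraph_adj]
    refine ⟨?_, Or.inl rfl⟩
    intro he
    exact hw (Subtype.ext he)
  · obtain ⟨x, hx⟩ := hne
    have : Nonempty S := ⟨⟨x, hx⟩⟩
    have : Subsingleton S := ⟨fun a b => Subtype.ext (h a.1 a.2 b.1 b.2)⟩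
    exact SimpleGraph.Connected.of_subsingleton

theorem treeAlpha_le :
    ∃ (n : ℕ) (T : SimpleGraph (Fin n)) (B : Fin n → Finset (Fin 5 × Bool)),
        T.IsTree ∧
        (∀ u v : Fin 5 × Bool, Gr.Adj u v → ∃ i, u ∈ B i ∧ v ∈ B i) ∧
        (∀ v : Fin 5 × Bool, (T.induce {i : Fin n | v ∈ B i}).Connected) ∧
        (∀ i : Fin n, ∀ S : Finset (Fin 5 × Bool), S ⊆ B i →
          Gr.IsIndepSet (S : Set (Fin 5 × Bool)) → S.card ≤ 2) := by
  refine ⟨6, starGraph 0, bagA, isTree_starGraph 0, ?_, ?_, ?_⟩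
  · decide +kernel
  · intro v
    apply star_connected
    · have : ∀ v : Fin 5 × Bool, ∃ i : Fin 6, v ∈ bagA i := by decide +kernel
      exact this v
    · have : ∀ v : Fin 5 × Bool, v ∈ bagA 0 ∨ ∀ i : Fin 6, v ∈ bagA i →
          ∀ j : Fin 6, v ∈ bagA j → i = j := by decide +kernel
      rcases this v with h | h
      · exact Or.inl h
      · exact Or.inr (fun i hi j hj => h i hi j hj)
  · intro i S hS hind
    have key : ∀ i : Fin 6, ∀ S ∈ (bagA i).powerset,
        (∀ u ∈ S, ∀ v ∈ S, u ≠ v → ¬ Gr.Adj u v) → S.card ≤ 2 := by decide +kernel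
    apply key i S (Finset.mem_powerset.mpr hS)
    intro u hu v hv huv
    exact hind (Finset.mem_coe.mpr hu) (Finset.mem_coe.mpr hv) huv

theorem treeChi_le :
    ∃ (n : ℕ) (T : SimpleGraph (Fin n)) (B : Fin n → Finset (Fin 5 × Bool)),
        T.IsTree ∧
        (∀ u v : Fin 5 × Bool, Gr.Adj u v → ∃ i, u ∈ B i ∧ v ∈ B i) ∧
        (∀ v : Fin 5 × Bool, (T.induce {i : Fin n | v ∈ B i}).Connected) ∧
        (∀ i : Fin n, (Gr.induce (B i : Set (Fin 5 × Bool))).Colorable 2) := by
  refine ⟨3, starGraph 0, bagC, isTree_starGraph 0, ?_, ?_, ?_⟩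
  · decide +kernel
  · intro v
    apply star_connected
    · have : ∀ v : Fin 5 × Bool, ∃ i : Fin 3, v ∈ bagC i := by decide +kernel
      exact this v
    · have : ∀ v : Fin 5 × Bool, v ∈ bagC 0 ∨ ∀ i : Fin 3, v ∈ bagC i →
          ∀ j : Fin 3, v ∈ bagC j → i = j := by decide +kernel
      rcases this v with h | h
      · exact Or.inl h
      · exact Or.inr (fun i hi j hj => h i hi j hj)
  · intro i
    have key : ∀ i : Fin 3, ∀ u ∈ bagC i, ∀ v ∈ bagC i, Gr.Adj u v → colC i u ≠ colC i v := by
      decide +kernel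
    refine ⟨SimpleGraph.Coloring.mk (fun v => colC i v.1) ?_⟩
    intro u v huv
    exact key i u.1 (Finset.mem_coe.mp u.2) v.1 (Finset.mem_coe.mp v.2) huv

/-- The five branch sets of a complete minor with five vertices. -/
theorem tw_ge (n : ℕ) (T : SimpleGraph (Fin n)) (B : Fin n → Finset (Fin 5 × Bool))
    (hT : T.IsTree)
    (hE : ∀ u v : Fin 5 × Bool, Gr.Adj u v → ∃ i, u ∈ B i ∧ v ∈ B i)
    (hC : ∀ v : Fin 5 × Bool, (T.induce {i : Fin n | v ∈ B i}).Connected) :
    ∃ t : Fin n, 5 ≤ (B t).card := by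
  classical
  -- node sets of the branch sets
  let U : Fin 5 → Set (Fin n) := fun k => {t | (k, false) ∈ B t} ∪ {t | (k, true) ∈ B t}
  have hU : ∀ k, PathClosed T (U k) := by
    intro k
    apply pathClosed_of_connected hT.isAcyclic
    have hadj : ∀ k : Fin 5, Gr.Adj (k, false) (k, true) := by decide +kernel
    obtain ⟨t, h1, h2⟩ := hE _ _ (hadj k)
    exact (induce_union_connected (hC (k, false)).preconnected (hC (k, true)).preconnected
      ⟨t, h1, h2⟩).preconnected
  have hmeet : ∀ k l : Fin 5, (U k ∩ U l).Nonempty := by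
    intro k l
    have hadj : ∀ k l : Fin 5, k ≠ l → ∃ a b : Bool, Gr.Adj (k, a) (l, b) := by decide +kernel
    by_cases hkl : k = l
    · subst hkl
      obtain ⟨⟨t, ht⟩⟩ := (hC (k, false)).nonempty
      exact ⟨t, Or.inl ht, Or.inl ht⟩
    · obtain ⟨a, b, hab⟩ := hadj k l hkl
      obtain ⟨t, h1, h2⟩ := hE _ _ hab
      refine ⟨t, ?_, ?_⟩
      · cases a
        · exact Or.inl h1
        · exact Or.inr h1
      · cases b
        · exact Or.inl h2
        · exact Or.inr h2
  have hconn := hT.connected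
  have h012 := helly_three hconn (hU 0) (hU 1) (hU 2) (hmeet 0 1) (hmeet 1 2) (hmeet 0 2)
  have h013 := helly_three hconn (hU 0) (hU 1) (hU 3) (hmeet 0 1) (hmeet 1 3) (hmeet 0 3)
  have h014 := helly_three hconn (hU 0) (hU 1) (hU 4) (hmeet 0 1) (hmeet 1 4) (hmeet 0 4)
  have P01 := (hU 0).inter (hU 1)
  have h0123 := helly_three hconn P01 (hU 2) (hU 3) h012 (hmeet 2 3) h013
  have h0124 := helly_three hconn P01 (hU 2) (hU 4) h012 (hmeet 2 4) h014
  have P012 := P01.inter (hU 2)
  have h01234 := helly_three hconn P012 (hU 3) (hU 4) h0123 (hmeet 3 4) h0124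
  obtain ⟨t, ⟨⟨⟨⟨h0, h1⟩, h2⟩, h3⟩, h4⟩⟩ := h01234
  have hall : ∀ k : Fin 5, ∃ b : Bool, (k, b) ∈ B t := by
    have aux : ∀ k : Fin 5, t ∈ U k → ∃ b : Bool, (k, b) ∈ B t := by
      intro k hk
      rcases hk with hk | hk
      · exact ⟨false, hk⟩
      · exact ⟨true, hk⟩
    intro k
    fin_cases k
    · exact aux 0 h0
    · exact aux 1 h1
    · exact aux 2 h2
    · exact aux 3 h3
    · exact aux 4 h4
  choose f hf using hall
  refine ⟨t, ?_⟩
  have hinj : Function.Injective (fun k : Fin 5 => (k, f k)) := by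
    intro a b hab
    exact congrArg Prod.fst hab
  have hsub : (Finset.univ.image (fun k : Fin 5 => (k, f k))) ⊆ B t := by
    intro x hx
    rw [Finset.mem_image] at hx
    obtain ⟨k, _, rfl⟩ := hx
    exact hf k
  have hcard := Finset.card_le_card hsub
  rw [Finset.card_image_of_injective _ hinj] at hcard
  simpa using hcard


end Pool.Agent.Helper69.OWN.TWK
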